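import Mathlib
import Pool.Agent.N367.SNP.Tab

/-! # The finite check -/

set_option autoImplicit false

namespace Pool.Agent.N367.SNP

/-- The partitions of `n`. -/
def P (n : ℕ) : List (List ℕ) := PT.getD n []

/-- The coefficients for the type `(x, y, z, u)`. -/
def C (x y z u : ℕ) : List ℤ := ((((CT.getD x []).getD y []).getD z []).getD u [])

/-- `ν` interlaces `ρ`. -/
def ILb : List ℕ → List ℕ → Bool
  | [], [] => true
  | [], [_] => true
  | [], _ :: _ :: _ => false
  | _ :: _, [] => false
  | n :: ns, [r] => Nat.ble n r && ns.isEmpty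
  | n :: ns, r :: r' :: rs => Nat.ble r' n && Nat.ble n r && ILb ns (r' :: rs)

/-- The sum of the coefficients over the partitions which `ν` interlaces. -/
def dot (ν : List ℕ) : List (List ℕ) → List ℤ → ℤ
  | p :: ps, c :: cs => match ILb ν p with
    | true => c + dot ν ps cs
    | false => dot ν ps cs
  | [], _ => 0
  | _ :: _, [] => 0

/-- Sum of vectors. -/
def vadd : List ℤ → List ℤ → List ℤ
  | a :: v, b :: w => (a + b) :: vadd v w
  | [], w => w
  | a :: v, [] => a :: v

/-- Types of stable sets with `a` vertices. -/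
def quads (x y z u a : ℕ) : List (ℕ × ℕ × ℕ × ℕ) :=
  ((List.range (x + 1)) ×ˢ ((List.range (y + 1)) ×ˢ ((List.range (z + 1)) ×ˢ
    (List.range (u + 1))))).filter fun t =>
      Nat.beq (t.1 + t.2.1 + t.2.2.1 + t.2.2.2) a &&
        (Nat.beq t.2.1 0 || (Nat.beq t.2.2.1 0 && Nat.beq t.2.2.2 0)) &&
        (Nat.beq t.2.2.2 0 || Nat.beq t.1 0)

/-- The number of sets with the type `t`. -/
def bn (x y z u : ℕ) (t : ℕ × ℕ × ℕ × ℕ) : ℕ :=
  x.choose t.1 * y.choose t.2.1 * z.choose t.2.2.1 * u.choose t.2.2.2

/-- The right-hand side. -/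
def rhs (x y z u a : ℕ) : List ℤ :=
  ((quads x y z u a).map fun t => (C (x - t.1) (y - t.2.1) (z - t.2.2.1) (u - t.2.2.2)).map
    fun c => (bn x y z u t : ℤ) * c).foldr vadd
      (List.replicate (P (x + y + z + u - a)).length 0)

/-- The left-hand side. -/
def lhs (x y z u a : ℕ) : List ℤ :=
  (P (x + y + z + u - a)).map fun ν => dot ν (P (x + y + z + u)) (C x y z u)

/-- The check for `x`. -/
def chk (x : ℕ) : Bool :=
  (List.range 3).all fun y => (List.range 5).all fun z => (List.range 3).all fun u =>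
    (List.range (x + y + z + u + 1)).all fun a => decide (lhs x y z u a = rhs x y z u a)

end Pool.Agent.N367.SNP
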