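import Mathlib
import Pool.Agent.R850.FG.Op
import Pool.Agent.N367.SNP.Check

/-! # Partitions as lists and Young diagrams -/

set_option autoImplicit false

namespace Pool.Agent.N367.SNP

open Pool.Agent.R850.FG

/-- Weakly decreasing lists of positive numbers. -/
def IsPart (l : List ℕ) : Prop := l.Pairwise (· ≥ ·) ∧ ∀ x ∈ l, 0 < x

theorem IsPart.tail {a : ℕ} {l : List ℕ} (h : IsPart (a :: l)) : IsPart l :=
  ⟨(List.pairwise_cons.1 h.1).2, fun x hx => h.2 x (List.mem_cons_of_mem _ hx)⟩

theorem IsPart.head {a b : ℕ} {l : List ℕ} (h : IsPart (a :: b :: l)) : b ≤ a :=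
  (List.pairwise_cons.1 h.1).1 b List.mem_cons_self

theorem partsF_mem : ∀ (f n m : ℕ) (l : List ℕ), IsPart l → (∀ x ∈ l, x ≤ m) → l.sum = n →
    n ≤ f → l ∈ partsF f n m := by
  intro f
  induction f with
  | zero =>
    intro n m l hl hm hs hf
    have hn : n = 0 := by omega
    subst hn
    rw [partsF, if_pos rfl]
    rcases l with _ | ⟨a, l⟩
    · simp
    · have h1 := hl.2 a List.mem_cons_self
      rw [List.sum_cons] at hs
      omega
  | succ f ih =>
    intro n m l hl hm hs hf
    rw [partsF]
    rcases l with _ | ⟨a, l⟩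
    · rw [List.sum_nil] at hs
      rw [if_pos hs.symm]
      simp
    · have h1 := hl.2 a List.mem_cons_self
      have h2 := hm a List.mem_cons_self
      rw [List.sum_cons] at hs
      rw [if_neg (by omega), List.mem_flatMap]
      refine ⟨a - 1, List.mem_range.2 (by omega), ?_⟩
      rw [List.mem_map]
      have h3 : a - 1 + 1 = a := by omega
      rw [h3]
      refine ⟨l, ih (n - a) a l hl.tail (fun x hx => ?_) (by omega) (by omega), rfl⟩
      exact (List.pairwise_cons.1 hl.1).1 x hx

theorem partsF_sound : ∀ (f n m : ℕ) (l : List ℕ), l ∈ partsF f n m →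
    IsPart l ∧ (∀ x ∈ l, x ≤ m) ∧ l.sum = n := by
  intro f
  induction f with
  | zero =>
    intro n m l hl
    rw [partsF] at hl
    split_ifs at hl with h
    · rw [List.mem_singleton] at hl
      subst hl
      exact ⟨⟨List.Pairwise.nil, by simp⟩, by simp, by simp [h]⟩
    · simp at hl
  | succ f ih =>
    intro n m l hl
    rw [partsF] at hl
    split_ifs at hl with h
    · rw [List.mem_singleton] at hl
      subst hl
      exact ⟨⟨List.Pairwise.nil, by simp⟩, by simp, by simp [h]⟩
    · rw [List.mem_flatMap] at hl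
      obtain ⟨k, hk, hl⟩ := hl
      rw [List.mem_range] at hk
      rw [List.mem_map] at hl
      obtain ⟨l', hl', rfl⟩ := hl
      obtain ⟨h1, h2, h3⟩ := ih _ _ _ hl'
      refine ⟨⟨List.pairwise_cons.2 ⟨fun x hx => h2 x hx, h1.1⟩, ?_⟩, ?_, ?_⟩
      · intro x hx
        rcases List.mem_cons.1 hx with rfl | hx
        · omega
        · exact h1.2 x hx
      · intro x hx
        rcases List.mem_cons.1 hx with rfl | hx
        · omega
        · have := h2 x hx
          omega
      · rw [List.sum_cons, h3]
        omega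

theorem PT_eq : PT = (List.range 14).map fun n => partsF n n n := by decide +kernel

theorem P_eq (n : ℕ) (hn : n ≤ 13) : P n = partsF n n n := by
  rw [P, PT_eq, List.getD_eq_getElem?_getD, List.getElem?_map, List.getElem?_range (by omega)]
  rfl

theorem P_nodup : ∀ n < 14, (P n).Nodup := by decide +kernel

/-- The Young diagram of a list. -/
noncomputable def toYD (l : List ℕ) : YoungDiagram := mk fun i => l.getD i 0

theorem getD_anti {l : List ℕ} (h : IsPart l) : Antitone fun i => l.getD i 0 := by
  apply antitone_nat_of_succ_le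
  intro i
  induction l generalizing i with
  | nil => simp
  | cons a l ih =>
    rcases i with _ | i
    · rcases l with _ | ⟨b, l⟩
      · simp
      · simpa using h.head
    · simpa using ih h.tail i

theorem toYD_rowLen {l : List ℕ} (h : IsPart l) (i : ℕ) : (toYD l).rowLen i = l.getD i 0 :=
  mk_rowLen _ (getD_anti h) l.length (by simp) i

theorem sum_getD (l : List ℕ) (b : ℕ) (hb : l.length ≤ b) :
    ∑ i ∈ Finset.range b, l.getD i 0 = l.sum := by
  induction l generalizing b with
  | nil => simp
  | cons a l ih =>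
    rcases b with _ | b
    · simp at hb
    · rw [Finset.sum_range_succ']
      simp only [List.getD_cons_succ, List.getD_cons_zero, List.sum_cons]
      rw [ih b (by simpa using hb)]
      omega

theorem toYD_card {l : List ℕ} (h : IsPart l) : (toYD l).cells.card = l.sum := by
  rw [card_eq_sum (toYD l) l.length (by rw [toYD_rowLen h]; simp)]
  simp_rw [toYD_rowLen h]
  exact sum_getD l _ le_rfl

theorem getD_pos {l : List ℕ} (h : IsPart l) {i : ℕ} (hi : i < l.length) : 0 < l.getD i 0 := by
  rw [List.getD_eq_getElem?_getD, List.getElem?_eq_getElem hi]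
  exact h.2 _ (List.getElem_mem hi)

theorem toYD_inj {l l' : List ℕ} (h : IsPart l) (h' : IsPart l') (he : toYD l = toYD l') :
    l = l' := by
  have h1 : ∀ i, l.getD i 0 = l'.getD i 0 := by
    intro i
    rw [← toYD_rowLen h, ← toYD_rowLen h', he]
  have hlen : l.length = l'.length := by
    rcases lt_trichotomy l.length l'.length with hlt | heq | hgt
    · have h2 := getD_pos h' hlt
      rw [← h1] at h2
      simp at h2
    · exact heq
    · have h2 := getD_pos h hgt
      rw [h1] at h2
      simp at h2
  apply List.ext_getElem hlen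
  intro i hi hi'
  have h2 := h1 i
  rw [List.getD_eq_getElem?_getD, List.getD_eq_getElem?_getD, List.getElem?_eq_getElem hi,
    List.getElem?_eq_getElem hi'] at h2
  exact h2

theorem exists_list (μ : YoungDiagram) : ∃ l : List ℕ, IsPart l ∧ toYD l = μ := by
  have hp : IsPart μ.rowLens := by
    constructor
    · rw [YoungDiagram.rowLens, List.pairwise_map]
      refine List.Pairwise.imp_of_mem ?_ (List.pairwise_lt_range (n := μ.colLen 0))
      intro a b _ _ hab
      exact μ.rowLen_anti a b hab.le
    · intro x hx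
      exact YoungDiagram.pos_of_mem_rowLens μ x hx
  refine ⟨μ.rowLens, hp, ?_⟩
  apply ext_rowLen
  intro i
  rw [toYD_rowLen hp]
  by_cases hi : i < μ.colLen 0
  · rw [List.getD_eq_getElem?_getD, YoungDiagram.rowLens, List.getElem?_map,
      List.getElem?_range hi]
    rfl
  · rw [List.getD_eq_default _ _ (by rw [YoungDiagram.length_rowLens]; omega)]
    have h1 : (i, 0) ∉ μ := by
      rw [YoungDiagram.mem_iff_lt_colLen]
      exact hi
    rw [YoungDiagram.mem_iff_lt_rowLen] at h1
    omega

theorem exists_part (μ : YoungDiagram) (n : ℕ) (hn : n ≤ 13) (h : μ.cells.card = n) :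
    ∃ l ∈ P n, toYD l = μ := by
  obtain ⟨l, hl, rfl⟩ := exists_list μ
  refine ⟨l, ?_, rfl⟩
  rw [toYD_card hl] at h
  rw [P_eq n hn]
  refine partsF_mem n n n l hl (fun x hx => ?_) h le_rfl
  rw [← h]
  exact List.le_sum_of_mem hx

theorem P_isPart {n : ℕ} (hn : n ≤ 13) {l : List ℕ} (hl : l ∈ P n) : IsPart l ∧ l.sum = n := by
  rw [P_eq n hn] at hl
  have := partsF_sound _ _ _ _ hl
  exact ⟨this.1, this.2.2⟩

theorem ILb_iff : ∀ {l p : List ℕ}, IsPart l → IsPart p →
    (ILb l p = true ↔ ∀ i, p.getD (i + 1) 0 ≤ l.getD i 0 ∧ l.getD i 0 ≤ p.getD i 0) := by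
  intro l
  induction l with
  | nil =>
    intro p hl hp
    rcases p with _ | ⟨a, _ | ⟨b, p⟩⟩
    · simp [ILb]
    · simp [ILb]
    · simp only [ILb, Bool.false_eq_true, List.getD_nil, false_iff, not_forall]
      refine ⟨0, ?_⟩
      have := hp.2 b (by simp)
      simp
      omega
  | cons n l ih =>
    intro p hl hp
    rcases p with _ | ⟨a, _ | ⟨b, p⟩⟩
    · simp only [ILb, Bool.false_eq_true, false_iff, not_forall]
      refine ⟨0, ?_⟩
      have := hl.2 n (by simp)
      simp
      omega
    · simp only [ILb, Bool.and_eq_true, Nat.ble_eq, List.isEmpty_iff]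
      constructor
      · rintro ⟨h1, rfl⟩ i
        rcases i with _ | i
        · simpa using h1
        · simp
      · intro h
        refine ⟨by simpa using (h 0).2, ?_⟩
        rcases l with _ | ⟨c, l⟩
        · rfl
        · have h1 := (h 1).2
          have := hl.2 c (by simp)
          simp at h1
          omega
    · simp only [ILb, Bool.and_eq_true, Nat.ble_eq]
      rw [ih hl.tail hp.tail]
      constructor
      · rintro ⟨⟨h1, h2⟩, h3⟩ i
        rcases i with _ | i
        · simpa using ⟨h1, h2⟩
        · simpa using h3 i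
      · intro h
        refine ⟨by simpa using h 0, fun i => by simpa using h (i + 1)⟩

theorem ILb_IL {l p : List ℕ} (hl : IsPart l) (hp : IsPart p) :
    ILb l p = true ↔ IL (toYD l) (toYD p) := by
  rw [ILb_iff hl hp, IL]
  simp_rw [toYD_rowLen hl, toYD_rowLen hp]

end Pool.Agent.N367.SNP
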