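import Mathlib
import Pool.Agent.N367.SNP.Lists
import Pool.Agent.N367.SNP.CheckA
import Pool.Agent.N367.SNP.CheckB
import Pool.Agent.N367.SNP.CheckC

/-! # The expansion of the numbers of colorings into Kostka numbers -/

set_option autoImplicit false

namespace Pool.Agent.N367.SNP

open Pool.Agent.R850.FG Finset

open Classical in
/-- The function on Young diagrams given by a list of coefficients. -/
noncomputable def ev : List (List ℕ) → List ℤ → YoungDiagram → ℤ
  | p :: ps, c :: cs => fun μ => (if toYD p = μ then c else 0) + ev ps cs μ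
  | [], _ => fun _ => 0
  | _ :: _, [] => fun _ => 0

open Classical in
theorem ev_cons (p : List ℕ) (ps : List (List ℕ)) (c : ℤ) (cs : List ℤ) (μ : YoungDiagram) :
    ev (p :: ps) (c :: cs) μ = (if toYD p = μ then c else 0) + ev ps cs μ := rfl

theorem ev_nil (ps : List (List ℕ)) (μ : YoungDiagram) : ev ps [] μ = 0 := by
  cases ps <;> rfl

theorem ev_zero (ps : List (List ℕ)) (k : ℕ) (μ : YoungDiagram) :
    ev ps (List.replicate k 0) μ = 0 := by
  induction k generalizing ps with
  | zero => exact ev_nil ps μ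
  | succ k ih =>
    rw [List.replicate_succ]
    cases ps with
    | nil => rfl
    | cons p ps =>
      rw [ev_cons, ih]
      simp

theorem ev_vadd (ps : List (List ℕ)) (v w : List ℤ) (μ : YoungDiagram) :
    ev ps (vadd v w) μ = ev ps v μ + ev ps w μ := by
  induction ps generalizing v w with
  | nil => simp [ev]
  | cons p ps ih =>
    rcases v with _ | ⟨a, v⟩
    · rw [vadd, ev_nil, zero_add]
    · rcases w with _ | ⟨b, w⟩
      · rw [vadd, ev_nil, add_zero]
      · rw [vadd, ev_cons, ev_cons, ev_cons, ih]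
        split_ifs <;> ring

theorem ev_smul (ps : List (List ℕ)) (k : ℤ) (v : List ℤ) (μ : YoungDiagram) :
    ev ps (v.map fun c => k * c) μ = k * ev ps v μ := by
  induction ps generalizing v with
  | nil => simp [ev]
  | cons p ps ih =>
    rcases v with _ | ⟨a, v⟩
    · simp [ev_nil]
    · rw [List.map_cons, ev_cons, ev_cons, ih]
      split_ifs <;> ring

theorem ev_foldr {α : Type} (ps : List (List ℕ)) (f : α → List ℤ) (z : List ℤ)
    (L : List α) (μ : YoungDiagram) (hz : ev ps z μ = 0) :
    ev ps ((L.map f).foldr vadd z) μ = (L.map fun t => ev ps (f t) μ).sum := by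
  induction L with
  | nil => simpa using hz
  | cons a L ih =>
    rw [List.map_cons, List.foldr_cons, ev_vadd, ih, List.map_cons, List.sum_cons]

theorem ev_map_notMem (ps : List (List ℕ)) (f : List ℕ → ℤ) (hps : ∀ p ∈ ps, IsPart p)
    (l : List ℕ) (hl : IsPart l) (h : l ∉ ps) : ev ps (ps.map f) (toYD l) = 0 := by
  induction ps with
  | nil => rfl
  | cons p ps ih =>
    rw [List.mem_cons, not_or] at h
    rw [List.map_cons, ev_cons, ih (fun q hq => hps q (List.mem_cons_of_mem _ hq)) h.2, if_neg, add_zero]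
    intro he
    exact h.1 (toYD_inj (hps p List.mem_cons_self) hl he).symm

theorem ev_map (ps : List (List ℕ)) (f : List ℕ → ℤ) (hps : ∀ p ∈ ps, IsPart p)
    (hnd : ps.Nodup) (l : List ℕ) (h : l ∈ ps) : ev ps (ps.map f) (toYD l) = f l := by
  induction ps with
  | nil => simp at h
  | cons p ps ih =>
    rw [List.nodup_cons] at hnd
    have hps' : ∀ q ∈ ps, IsPart q := fun q hq => hps q (List.mem_cons_of_mem _ hq)
    rw [List.map_cons, ev_cons]
    rcases List.mem_cons.1 h with rfl | h
    · rw [ev_map_notMem ps f hps' l (hps l List.mem_cons_self) hnd.1, if_pos rfl, add_zero]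
    · rw [ih hps' hnd.2 h, if_neg, zero_add]
      intro he
      have := toYD_inj (hps p List.mem_cons_self) (hps' l h) he
      subst this
      exact hnd.1 h

open Classical in
theorem D_ev (ps : List (List ℕ)) (cs : List ℤ) (n a : ℕ) (hps : ∀ p ∈ ps, IsPart p ∧ p.sum = n)
    (l : List ℕ) (hl : IsPart l) (hn : l.sum + a = n) :
    D a (ev ps cs) (toYD l) = dot l ps cs := by
  induction ps generalizing cs with
  | nil =>
    rw [dot, D]
    exact Finset.sum_eq_zero fun _ _ => rfl
  | cons p ps ih =>
    rcases cs with _ | ⟨c, cs⟩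
    · rw [dot, D]
      exact Finset.sum_eq_zero fun _ _ => rfl
    · have ih' := ih cs (fun q hq => hps q (List.mem_cons_of_mem _ hq))
      have hp := hps p List.mem_cons_self
      rw [dot]
      have h1 : D a (ev (p :: ps) (c :: cs)) (toYD l) =
          (if IL (toYD l) (toYD p) then c else 0) + D a (ev ps cs) (toYD l) := by
        simp only [D, ev_cons]
        rw [Finset.sum_add_distrib]
        congr 1
        rw [Finset.sum_ite_eq]
        refine if_congr ?_ rfl rfl
        rw [mem_filter, mem_YD, toYD_card hp.1, toYD_card hl, hp.2, hn]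
        simp
      rw [h1, ih']
      by_cases h2 : ILb l p = true
      · rw [h2, if_pos ((ILb_IL hl hp.1).1 h2)]
      · rw [if_neg (fun h3 => h2 ((ILb_IL hl hp.1).2 h3))]
        rw [Bool.not_eq_true] at h2
        rw [h2, zero_add]

/-- The Schur coefficients for the type `(x, y, z, u)`. -/
noncomputable def cf (x y z u : ℕ) : YoungDiagram → ℤ := ev (P (x + y + z + u)) (C x y z u)

theorem chk_all {x y z u a : ℕ} (hx : x ≤ 5) (hy : y ≤ 2) (hz : z ≤ 4) (hu : u ≤ 2)
    (ha : a ≤ x + y + z + u) : lhs x y z u a = rhs x y z u a := by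
  have h : chk x = true := by
    interval_cases x
    · exact chk0
    · exact chk1
    · exact chk2
    · exact chk3
    · exact chk4
    · exact chk5
  rw [chk, List.all_eq_true] at h
  have h1 := h y (List.mem_range.2 (by omega))
  rw [List.all_eq_true] at h1
  have h2 := h1 z (List.mem_range.2 (by omega))
  rw [List.all_eq_true] at h2
  have h3 := h2 u (List.mem_range.2 (by omega))
  rw [List.all_eq_true] at h3
  exact of_decide_eq_true (h3 a (List.mem_range.2 (by omega)))

theorem quads_mem {x y z u a : ℕ} {t : ℕ × ℕ × ℕ × ℕ} (ht : t ∈ quads x y z u a) :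
    t.1 ≤ x ∧ t.2.1 ≤ y ∧ t.2.2.1 ≤ z ∧ t.2.2.2 ≤ u ∧ t.1 + t.2.1 + t.2.2.1 + t.2.2.2 = a := by
  obtain ⟨t1, t2, t3, t4⟩ := t
  rw [quads, List.mem_filter] at ht
  obtain ⟨h1, h2⟩ := ht
  simp only [List.mem_product, List.mem_range, Bool.and_eq_true, Nat.beq_eq] at h1 h2
  simp only
  omega

theorem D_cf {x y z u a : ℕ} (hx : x ≤ 5) (hy : y ≤ 2) (hz : z ≤ 4) (hu : u ≤ 2)
    (ν : YoungDiagram) (hν : ν.cells.card + a = x + y + z + u) :
    D a (cf x y z u) ν = ((quads x y z u a).map fun t => (bn x y z u t : ℤ) *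
      cf (x - t.1) (y - t.2.1) (z - t.2.2.1) (u - t.2.2.2) ν).sum := by
  obtain ⟨l, hl, rfl⟩ := exists_part ν ν.cells.card (by omega) rfl
  have hl' := P_isPart (by omega) hl
  rw [toYD_card hl'.1] at hl hν
  have hm : x + y + z + u - a = l.sum := by omega
  rw [cf, D_ev _ _ (x + y + z + u) a (fun p hp => P_isPart (by omega) hp) l hl'.1 hν]
  have h1 : ev (P l.sum) (lhs x y z u a) (toYD l) = dot l (P (x + y + z + u)) (C x y z u) := by
    rw [lhs, hm]
    exact ev_map (P l.sum) (fun ν => dot ν (P (x + y + z + u)) (C x y z u))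
      (fun p hp => (P_isPart (by omega) hp).1) (P_nodup l.sum (by omega)) l hl
  rw [← h1, chk_all hx hy hz hu (by omega), rhs, hm, ev_foldr _ _ _ _ _ (ev_zero _ _ _)]
  congr 1
  refine List.map_congr_left fun t ht => ?_
  have ht' := quads_mem ht
  rw [ev_smul, cf]
  congr 3
  omega

/-- The number of colorings with given sizes of the color classes, by types. -/
def Fw : ℕ → (ℕ → ℕ) → ℕ → ℕ → ℕ → ℕ → ℕ
  | 0, _, x, y, z, u => if x + y + z + u = 0 then 1 else 0
  | N + 1, m, x, y, z, u => ((quads x y z u (m N)).map fun t => bn x y z u t *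
      Fw N m (x - t.1) (y - t.2.1) (z - t.2.2.1) (u - t.2.2.2)).sum

theorem cf_zero : cf 0 0 0 0 ⊥ = 1 := by
  have h1 : toYD [] = ⊥ := by
    rw [← card_eq_zero_iff', toYD_card ⟨List.Pairwise.nil, by simp⟩]
    rfl
  have h2 : P (0 + 0 + 0 + 0) = [[]] := rfl
  have h3 : C 0 0 0 0 = [1] := rfl
  rw [cf, h2, h3, ev_cons, ev_nil, h1]
  simp

theorem sum_list_comm {α β : Type} (s : Finset α) (L : List β) (g : α → β → ℤ) :
    ∑ a ∈ s, (L.map fun b => g a b).sum = (L.map fun b => ∑ a ∈ s, g a b).sum := by
  induction L with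
  | nil => simp
  | cons b L ih =>
    simp only [List.map_cons, List.sum_cons]
    rw [Finset.sum_add_distrib, ih]

theorem Fw_eq (m : ℕ → ℕ) (N : ℕ) : ∀ x y z u : ℕ, x ≤ 5 → y ≤ 2 → z ≤ 4 → u ≤ 2 →
    (Fw N m x y z u : ℤ) =
      ∑ ρ ∈ YD (x + y + z + u), KK (fun i => (m i : ℤ)) N ρ * cf x y z u ρ := by
  induction N with
  | zero =>
    intro x y z u hx hy hz hu
    rw [Fw]
    by_cases h : x + y + z + u = 0
    · rw [if_pos h]
      have hx : x = 0 := by omega
      have hy : y = 0 := by omega
      have hz : z = 0 := by omega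
      have hu : u = 0 := by omega
      subst hx hy hz hu
      rw [Finset.sum_eq_single ⊥]
      · rw [KK_zero_bot, cf_zero]
        rfl
      · intro b _ hb
        rw [KK_zero_ne _ hb, zero_mul]
      · intro hb
        exact absurd (mem_YD.2 (card_eq_zero_iff'.2 rfl)) hb
    · rw [if_neg h]
      symm
      rw [Nat.cast_zero]
      refine Finset.sum_eq_zero fun ρ hρ => ?_
      rw [mem_YD] at hρ
      rw [KK_zero_ne, zero_mul]
      intro h0
      rw [← card_eq_zero_iff'] at h0
      omega
  | succ N ih =>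
    intro x y z u hx hy hz hu
    rw [Fw]
    by_cases h : m N ≤ x + y + z + u
    · have h1 := sum_U_mul (x + y + z + u - m N) (m N) (KK (fun i => (m i : ℤ)) N) (cf x y z u)
      rw [Nat.sub_add_cancel h] at h1
      rw [KK, h1]
      have h2 : ∀ ν ∈ YD (x + y + z + u - m N), KK (fun i => (m i : ℤ)) N ν *
          D (m N) (cf x y z u) ν = ((quads x y z u (m N)).map fun t => (bn x y z u t : ℤ) *
            (KK (fun i => (m i : ℤ)) N ν *
              cf (x - t.1) (y - t.2.1) (z - t.2.2.1) (u - t.2.2.2) ν)).sum := by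
        intro ν hν
        rw [mem_YD] at hν
        rw [D_cf hx hy hz hu ν (by omega), ← List.sum_map_mul_left]
        congr 1
        refine List.map_congr_left fun t _ => ?_
        ring
      rw [Finset.sum_congr rfl h2, sum_list_comm]
      rw [Nat.cast_list_sum, List.map_map]
      congr 1
      refine List.map_congr_left fun t ht => ?_
      have ht' := quads_mem ht
      simp only [Function.comp_apply]
      rw [← Finset.mul_sum, Nat.cast_mul, ih _ _ _ _ (by omega) (by omega) (by omega) (by omega)]
      have h3 : x - t.1 + (y - t.2.1) + (z - t.2.2.1) + (u - t.2.2.2) = x + y + z + u - m N := by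
        omega
      rw [h3]
    · have h1 : quads x y z u (m N) = [] := by
        rw [List.eq_nil_iff_forall_not_mem]
        intro t ht
        have ht' := quads_mem ht
        omega
      rw [h1, List.map_nil, List.sum_nil, Nat.cast_zero]
      symm
      refine Finset.sum_eq_zero fun ρ hρ => ?_
      rw [mem_YD] at hρ
      have h2 : U ((m N : ℕ) : ℤ) (KK (fun i => (m i : ℤ)) N) ρ = 0 := by
        rw [U]
        refine Finset.sum_eq_zero fun ν hν => ?_
        rw [mem_filter] at hν
        omega
      rw [KK, h2, zero_mul]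

end Pool.Agent.N367.SNP
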