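import Mathlib
import Pool.Agent.N367.SNP.Schur

/-! # The graph and its colorings -/

set_option autoImplicit false

namespace Pool.Agent.N367.SNP

open Finset

/-- The block of a vertex: blocks `0, 1, 2, 3` with `5, 2, 4, 2` vertices. -/
def blk (v : Fin 13) : Fin 4 := if v.val < 5 then 0 else if v.val < 7 then 1 else
  if v.val < 11 then 2 else 3

/-- Adjacency of blocks: `1 - 3`, `1 - 2`, `0 - 3`. -/
def adjb (i j : Fin 4) : Bool :=
  (i = 1 ∧ j = 3) ∨ (i = 3 ∧ j = 1) ∨ (i = 1 ∧ j = 2) ∨ (i = 2 ∧ j = 1) ∨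
    (i = 0 ∧ j = 3) ∨ (i = 3 ∧ j = 0)

theorem adjb_symm : ∀ i j, adjb i j = adjb j i := by decide

theorem adjb_irrefl : ∀ i, adjb i i = false := by decide

/-- `K_{7,6}` minus the edges of `K_{5,4}`. -/
def Gr : SimpleGraph (Fin 13) where
  Adj u v := adjb (blk u) (blk v) = true
  symm := ⟨fun u v h => by rw [adjb_symm]; exact h⟩
  loopless := ⟨fun u h => by rw [adjb_irrefl] at h; exact absurd h (by decide)⟩

instance : DecidableRel Gr.Adj := fun u v => inferInstanceAs (Decidable (adjb (blk u) (blk v) = true))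

/-- The number of vertices of `W` in the block `i`. -/
def ty (W : Finset (Fin 13)) (i : Fin 4) : ℕ := (W.filter fun v => blk v = i).card

/-- Stable sets. -/
def Stab (T : Finset (Fin 13)) : Prop := ∀ u ∈ T, ∀ v ∈ T, ¬ Gr.Adj u v

instance : DecidablePred Stab := fun T =>
  inferInstanceAs (Decidable (∀ u ∈ T, ∀ v ∈ T, ¬ Gr.Adj u v))

/-- The proper colorings of the graph induced on `W` by the colors below `N` such that the color
`i` is used `m i` times (the function is `0` outside `W`). -/
def A (N : ℕ) (W : Finset (Fin 13)) (m : ℕ → ℕ) : Finset (Fin 13 → ℕ) :=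
  (Fintype.piFinset fun v => if v ∈ W then range N else {0}).filter fun κ =>
    (∀ u ∈ W, ∀ v ∈ W, Gr.Adj u v → κ u ≠ κ v) ∧
      ∀ i ∈ range N, (W.filter fun v => κ v = i).card = m i

theorem mem_A {N : ℕ} {W : Finset (Fin 13)} {m : ℕ → ℕ} {κ : Fin 13 → ℕ} :
    κ ∈ A N W m ↔ (∀ v ∈ W, κ v < N) ∧ (∀ v ∉ W, κ v = 0) ∧
      (∀ u ∈ W, ∀ v ∈ W, Gr.Adj u v → κ u ≠ κ v) ∧
      ∀ i < N, (W.filter fun v => κ v = i).card = m i := by
  rw [A, mem_filter, Fintype.mem_piFinset]
  constructor
  · rintro ⟨h1, h2, h3⟩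
    refine ⟨fun v hv => ?_, fun v hv => ?_, h2, fun i hi => h3 i (mem_range.2 hi)⟩
    · have := h1 v
      rw [if_pos hv] at this
      exact mem_range.1 this
    · have := h1 v
      rw [if_neg hv] at this
      exact mem_singleton.1 this
  · rintro ⟨h1, h2, h3, h4⟩
    refine ⟨fun v => ?_, h3, fun i hi => h4 i (mem_range.1 hi)⟩
    by_cases hv : v ∈ W
    · rw [if_pos hv]
      exact mem_range.2 (h1 v hv)
    · rw [if_neg hv]
      exact mem_singleton.2 (h2 v hv)

theorem card_A_zero (W : Finset (Fin 13)) (m : ℕ → ℕ) :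
    (A 0 W m).card = if W = ∅ then 1 else 0 := by
  by_cases h : W = ∅
  · subst h
    rw [if_pos rfl, Finset.card_eq_one]
    refine ⟨fun _ => 0, ?_⟩
    ext κ
    rw [mem_A, mem_singleton]
    constructor
    · rintro ⟨-, h, -⟩
      funext v
      exact h v (notMem_empty v)
    · rintro rfl
      simp
  · rw [if_neg h, Finset.card_eq_zero, Finset.eq_empty_iff_forall_notMem]
    intro κ hκ
    obtain ⟨v, hv⟩ := Finset.nonempty_iff_ne_empty.2 h
    exact absurd ((mem_A.1 hκ).1 v hv) (Nat.not_lt_zero _)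

theorem card_fiber (N : ℕ) (W T : Finset (Fin 13)) (m : ℕ → ℕ) (hT : T ⊆ W) (hs : Stab T)
    (hc : T.card = m N) :
    ((A (N + 1) W m).filter fun κ => (W.filter fun v => κ v = N) = T).card =
      (A N (W \ T) m).card := by
  refine Finset.card_nbij' (fun κ v => if v ∈ T then 0 else κ v)
    (fun κ v => if v ∈ T then N else κ v) ?_ ?_ ?_ ?_
  · intro κ hκ
    rw [mem_coe, mem_filter, mem_A] at hκ
    obtain ⟨⟨h1, h2, h3, h4⟩, h5⟩ := hκ
    rw [mem_coe, mem_A]
    beta_reduce
    have h6 : ∀ v ∈ W, (κ v = N ↔ v ∈ T) := by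
      intro v hv
      rw [← h5, mem_filter]
      simp [hv]
    refine ⟨fun v hv => ?_, fun v hv => ?_, fun u hu v hv hadj => ?_, fun i hi => ?_⟩
    · rw [mem_sdiff] at hv
      rw [if_neg hv.2]
      have := h1 v hv.1
      have h7 := (h6 v hv.1).not.2 hv.2
      omega
    · rw [mem_sdiff, not_and, not_not] at hv
      split_ifs with h7
      · rfl
      · exact h2 v fun h8 => h7 (hv h8)
    · rw [mem_sdiff] at hu hv
      rw [if_neg hu.2, if_neg hv.2]
      exact h3 u hu.1 v hv.1 hadj
    · rw [← h4 i (by omega)]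
      congr 1
      ext v
      rw [mem_filter, mem_filter, mem_sdiff]
      constructor
      · rintro ⟨⟨h7, h8⟩, h9⟩
        rw [if_neg h8] at h9
        exact ⟨h7, h9⟩
      · rintro ⟨h7, h8⟩
        have h9 : v ∉ T := by
          rw [← h6 v h7]
          omega
        rw [if_neg h9]
        exact ⟨⟨h7, h9⟩, h8⟩
  · intro κ hκ
    rw [mem_coe, mem_A] at hκ
    obtain ⟨h1, h2, h3, h4⟩ := hκ
    rw [mem_coe, mem_filter, mem_A]
    beta_reduce
    refine ⟨⟨fun v hv => ?_, fun v hv => ?_, fun u hu v hv hadj => ?_, fun i hi => ?_⟩, ?_⟩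
    · split_ifs with h5
      · omega
      · have := h1 v (mem_sdiff.2 ⟨hv, h5⟩)
        omega
    · have h5 : v ∉ T := fun h => hv (hT h)
      rw [if_neg h5]
      exact h2 v fun h => hv (mem_sdiff.1 h).1
    · split_ifs with h5 h6 h6
      · exact absurd hadj (hs u h5 v h6)
      · have := h1 v (mem_sdiff.2 ⟨hv, h6⟩)
        omega
      · have := h1 u (mem_sdiff.2 ⟨hu, h5⟩)
        omega
      · exact h3 u (mem_sdiff.2 ⟨hu, h5⟩) v (mem_sdiff.2 ⟨hv, h6⟩) hadj
    · by_cases hiN : i = N
      · subst hiN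
        rw [← hc]
        congr 1
        ext v
        rw [mem_filter]
        constructor
        · rintro ⟨h5, h6⟩
          by_contra h7
          rw [if_neg h7] at h6
          have := h1 v (mem_sdiff.2 ⟨h5, h7⟩)
          omega
        · intro h5
          exact ⟨hT h5, if_pos h5⟩
      · rw [← h4 i (by omega)]
        congr 1
        ext v
        rw [mem_filter, mem_filter, mem_sdiff]
        constructor
        · rintro ⟨h5, h6⟩
          by_cases h7 : v ∈ T
          · rw [if_pos h7] at h6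
            exact absurd h6.symm hiN
          · rw [if_neg h7] at h6
            exact ⟨⟨h5, h7⟩, h6⟩
        · rintro ⟨⟨h5, h6⟩, h7⟩
          rw [if_neg h6]
          exact ⟨h5, h7⟩
    · ext v
      rw [mem_filter]
      constructor
      · rintro ⟨h5, h6⟩
        by_contra h7
        rw [if_neg h7] at h6
        have := h1 v (mem_sdiff.2 ⟨h5, h7⟩)
        omega
      · intro h5
        exact ⟨hT h5, if_pos h5⟩
  · intro κ hκ
    rw [mem_coe, mem_filter, mem_A] at hκ
    funext v
    simp only
    split_ifs with h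
    · have h5 := hκ.2
      rw [← h5, mem_filter] at h
      exact h.2.symm
    · rfl
  · intro κ hκ
    rw [mem_coe, mem_A] at hκ
    funext v
    simp only
    split_ifs with h
    · exact (hκ.2.1 v fun h' => (mem_sdiff.1 h').2 h).symm
    · rfl

theorem card_A_succ (N : ℕ) (W : Finset (Fin 13)) (m : ℕ → ℕ) :
    (A (N + 1) W m).card =
      ∑ T ∈ W.powerset.filter fun T => Stab T ∧ T.card = m N, (A N (W \ T) m).card := by
  rw [Finset.card_eq_sum_card_fiberwise (f := fun κ => W.filter fun v => κ v = N)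
    (t := W.powerset.filter fun T => Stab T ∧ T.card = m N)]
  · refine Finset.sum_congr rfl fun T hT => ?_
    rw [mem_filter, mem_powerset] at hT
    exact card_fiber N W T m hT.1 hT.2.1 hT.2.2
  · intro κ hκ
    rw [mem_coe, mem_A] at hκ
    obtain ⟨h1, h2, h3, h4⟩ := hκ
    rw [mem_coe, mem_filter, mem_powerset]
    refine ⟨filter_subset _ _, fun u hu v hv hadj => ?_, h4 N (by omega)⟩
    rw [mem_filter] at hu hv
    exact h3 u hu.1 v hv.1 hadj (hu.2.trans hv.2.symm)

theorem ty_sdiff {W T : Finset (Fin 13)} (hT : T ⊆ W) (i : Fin 4) :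
    ty (W \ T) i = ty W i - ty T i := by
  have h1 : (W \ T).filter (fun v => blk v = i) =
      W.filter (fun v => blk v = i) \ T.filter (fun v => blk v = i) := by
    ext v
    simp only [mem_filter, mem_sdiff]
    tauto
  rw [ty, h1, card_sdiff_of_subset (filter_subset_filter _ hT)]
  rfl

theorem ty_le {W T : Finset (Fin 13)} (hT : T ⊆ W) (i : Fin 4) : ty T i ≤ ty W i :=
  card_le_card (filter_subset_filter _ hT)

theorem ty_sum (W : Finset (Fin 13)) : W.card = ty W 0 + ty W 1 + ty W 2 + ty W 3 := by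
  have h := Finset.card_eq_sum_card_fiberwise (s := W) (f := blk) (t := Finset.univ)
    (fun _ _ => by simp)
  rw [h, Fin.sum_univ_four]
  rfl

theorem stab_iff (T : Finset (Fin 13)) : Stab T ↔
    (ty T 1 = 0 ∨ (ty T 2 = 0 ∧ ty T 3 = 0)) ∧ (ty T 3 = 0 ∨ ty T 0 = 0) := by
  have h0 : ∀ i, ty T i = 0 ↔ ∀ v ∈ T, blk v ≠ i := by
    intro i
    rw [ty, Finset.card_eq_zero, Finset.filter_eq_empty_iff]
  have h1 : Stab T ↔ ∀ i j : Fin 4, adjb i j = true → ty T i = 0 ∨ ty T j = 0 := by
    constructor
    · intro h i j hij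
      by_contra hc
      rw [not_or, h0, h0] at hc
      obtain ⟨h2, h3⟩ := hc
      push Not at h2 h3
      obtain ⟨u, hu, hu'⟩ := h2
      obtain ⟨v, hv, hv'⟩ := h3
      refine h u hu v hv ?_
      show adjb (blk u) (blk v) = true
      rw [hu', hv', hij]
    · intro h u hu v hv hadj
      rcases h (blk u) (blk v) hadj with h2 | h2
      · exact (h0 _).1 h2 u hu rfl
      · exact (h0 _).1 h2 v hv rfl
  rw [h1]
  constructor
  · intro h
    have h13 := h 1 3 (by decide)
    have h12 := h 1 2 (by decide)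
    have h03 := h 0 3 (by decide)
    omega
  · intro h i j hij
    fin_cases i <;> fin_cases j <;> first | (exact absurd hij (by decide)) | (simp; omega)

/-- The number of subsets with a given type. -/
theorem card_ty (W : Finset (Fin 13)) (t : Fin 4 → ℕ) :
    (W.powerset.filter fun T => ∀ i, ty T i = t i).card = ∏ i, (ty W i).choose (t i) := by
  have h1 : ∏ i, (ty W i).choose (t i) =
      (Fintype.piFinset fun i => powersetCard (t i) (W.filter fun v => blk v = i)).card := by
    rw [Fintype.card_piFinset]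
    refine Finset.prod_congr rfl fun i _ => ?_
    rw [card_powersetCard]
    rfl
  rw [h1]
  refine Finset.card_nbij' (fun T i => T.filter fun v => blk v = i) (fun S => univ.biUnion S)
    ?_ ?_ ?_ ?_
  · intro T hT
    rw [mem_coe, mem_filter, mem_powerset] at hT
    rw [mem_coe, Fintype.mem_piFinset]
    intro i
    rw [mem_powersetCard]
    exact ⟨filter_subset_filter _ hT.1, hT.2 i⟩
  · intro S hS
    rw [mem_coe, Fintype.mem_piFinset] at hS
    simp only [mem_powersetCard] at hS
    rw [mem_coe, mem_filter, mem_powerset]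
    have h2 : ∀ i, (univ.biUnion S).filter (fun v => blk v = i) = S i := by
      intro i
      ext v
      rw [mem_filter, mem_biUnion]
      constructor
      · rintro ⟨⟨j, -, hj⟩, hv⟩
        have := (mem_filter.1 ((hS j).1 hj)).2
        rw [← hv, this]
        exact hj
      · intro hv
        exact ⟨⟨i, mem_univ i, hv⟩, (mem_filter.1 ((hS i).1 hv)).2⟩
    refine ⟨?_, fun i => ?_⟩
    · intro v hv
      rw [mem_biUnion] at hv
      obtain ⟨j, -, hj⟩ := hv
      exact (mem_filter.1 ((hS j).1 hj)).1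
    · rw [ty, h2]
      exact (hS i).2
  · intro T hT
    ext v
    simp
  · intro S hS
    rw [mem_coe, Fintype.mem_piFinset] at hS
    simp only [mem_powersetCard] at hS
    funext i
    ext v
    simp only [mem_filter, mem_biUnion]
    constructor
    · rintro ⟨⟨j, -, hj⟩, hv⟩
      have := (mem_filter.1 ((hS j).1 hj)).2
      rw [← hv, this]
      exact hj
    · intro hv
      exact ⟨⟨i, mem_univ i, hv⟩, (mem_filter.1 ((hS i).1 hv)).2⟩

end Pool.Agent.N367.SNP
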