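import Mathlib
import Pool.Agent.N367.SNP.Graph

/-! # The number of colorings with given sizes of the color classes -/

set_option autoImplicit false

namespace Pool.Agent.N367.SNP

open Finset Pool.Agent.R850.FG

theorem quads_iff {x y z u a : ℕ} {t1 t2 t3 t4 : ℕ} : (t1, t2, t3, t4) ∈ quads x y z u a ↔
    (t1 ≤ x ∧ t2 ≤ y ∧ t3 ≤ z ∧ t4 ≤ u) ∧ t1 + t2 + t3 + t4 = a ∧
      (t2 = 0 ∨ (t3 = 0 ∧ t4 = 0)) ∧ (t4 = 0 ∨ t1 = 0) := by
  rw [quads, List.mem_filter]
  simp only [List.mem_product, List.mem_range, Bool.and_eq_true, Nat.beq_eq, Bool.or_eq_true]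
  omega

theorem quads_nodup (x y z u a : ℕ) : (quads x y z u a).Nodup := by
  apply List.Nodup.filter
  exact List.nodup_range.product (List.nodup_range.product
    (List.nodup_range.product List.nodup_range))

theorem card_A_eq (m : ℕ → ℕ) (N : ℕ) : ∀ W : Finset (Fin 13),
    (A N W m).card = Fw N m (ty W 0) (ty W 1) (ty W 2) (ty W 3) := by
  induction N with
  | zero =>
    intro W
    rw [card_A_zero, Fw]
    have h := ty_sum W
    refine if_congr ?_ rfl rfl
    rw [← h, Finset.card_eq_zero]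
  | succ N ih =>
    intro W
    rw [card_A_succ, Fw, ← List.sum_toFinset _ (quads_nodup _ _ _ _ _)]
    rw [← Finset.sum_fiberwise_of_maps_to (g := fun T => (ty T 0, ty T 1, ty T 2, ty T 3))
      (t := (quads (ty W 0) (ty W 1) (ty W 2) (ty W 3) (m N)).toFinset)]
    · refine Finset.sum_congr rfl ?_
      rintro ⟨t1, t2, t3, t4⟩ ht
      rw [List.mem_toFinset, quads_iff] at ht
      obtain ⟨h1, h2, h3⟩ := ht
      have h4 : ∀ T ∈ ({T ∈ W.powerset | Stab T ∧ T.card = m N}).filter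
          (fun T => (ty T 0, ty T 1, ty T 2, ty T 3) = (t1, t2, t3, t4)),
          (A N (W \ T) m).card = Fw N m (ty W 0 - t1) (ty W 1 - t2) (ty W 2 - t3) (ty W 3 - t4) := by
        intro T hT
        rw [mem_filter, mem_filter, mem_powerset, Prod.mk.injEq, Prod.mk.injEq,
          Prod.mk.injEq] at hT
        obtain ⟨⟨h5, -⟩, h6, h7, h8, h9⟩ := hT
        rw [ih, ty_sdiff h5, ty_sdiff h5, ty_sdiff h5, ty_sdiff h5, h6, h7, h8, h9]
      rw [Finset.sum_congr rfl h4, Finset.sum_const, smul_eq_mul]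
      congr 1
      have h5 := card_ty W ![t1, t2, t3, t4]
      rw [Fin.prod_univ_four] at h5
      have h6 : bn (ty W 0) (ty W 1) (ty W 2) (ty W 3) (t1, t2, t3, t4) =
        (ty W 0).choose (![t1, t2, t3, t4] 0) * (ty W 1).choose (![t1, t2, t3, t4] 1) *
          (ty W 2).choose (![t1, t2, t3, t4] 2) * (ty W 3).choose (![t1, t2, t3, t4] 3) := rfl
      rw [h6, ← h5]
      congr 1
      ext T
      rw [mem_filter, mem_filter, mem_filter, Prod.mk.injEq, Prod.mk.injEq, Prod.mk.injEq,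
        stab_iff, ty_sum T, Fin.forall_fin_succ, Fin.forall_fin_succ, Fin.forall_fin_succ,
        Fin.forall_fin_one]
      constructor
      · rintro ⟨⟨h7, -⟩, h8, h9, h10, h11⟩
        exact ⟨h7, h8, h9, h10, h11⟩
      · rintro ⟨h7, h8, h9, h10, h11⟩
        have h8' : ty T 0 = t1 := h8
        have h9' : ty T 1 = t2 := h9
        have h10' : ty T 2 = t3 := h10
        have h11' : ty T 3 = t4 := h11
        refine ⟨⟨h7, ⟨?_, ?_⟩, ?_⟩, h8', h9', h10', h11'⟩ <;> omega
    · intro T hT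
      rw [mem_filter, mem_powerset, stab_iff, ty_sum T] at hT
      rw [List.mem_toFinset, quads_iff]
      have := ty_le hT.1
      exact ⟨⟨this 0, this 1, this 2, this 3⟩, hT.2.2, hT.2.1⟩

theorem ty_univ : ty univ 0 = 5 ∧ ty univ 1 = 2 ∧ ty univ 2 = 4 ∧ ty univ 3 = 2 := by decide

/-- The number of the proper colorings, in terms of Kostka numbers. -/
theorem card_A_univ (m : ℕ → ℕ) (N : ℕ) : ((A N univ m).card : ℤ) =
    ∑ ρ ∈ YD 13, KK (fun i => (m i : ℤ)) N ρ * cf 5 2 4 2 ρ := by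
  rw [card_A_eq]
  obtain ⟨h0, h1, h2, h3⟩ := ty_univ
  rw [h0, h1, h2, h3]
  exact Fw_eq m N 5 2 4 2 (by omega) (by omega) (by omega) (by omega)

theorem C_top_nonneg : ∀ c ∈ C 5 2 4 2, 0 ≤ c := by decide +kernel

theorem ev_nonneg (ps : List (List ℕ)) (cs : List ℤ) (h : ∀ c ∈ cs, 0 ≤ c) (μ : YoungDiagram) :
    0 ≤ ev ps cs μ := by
  induction ps generalizing cs with
  | nil => exact le_rfl
  | cons p ps ih =>
    rcases cs with _ | ⟨c, cs⟩
    · rw [ev_nil]
    · rw [ev_cons]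
      have h1 := ih cs fun c hc => h c (List.mem_cons_of_mem _ hc)
      have h2 := h c List.mem_cons_self
      split_ifs <;> omega

theorem cf_nonneg (μ : YoungDiagram) : 0 ≤ cf 5 2 4 2 μ := ev_nonneg _ _ C_top_nonneg μ

/-- The content `8, 4, 1` does not occur. -/
theorem A_mid (m : ℕ → ℕ) (h0 : m 0 = 8) (h1 : m 1 = 4) (h2 : m 2 = 1) :
    (A 3 univ m).card = 0 := by
  rw [card_A_eq]
  obtain ⟨e0, e1, e2, e3⟩ := ty_univ
  rw [e0, e1, e2, e3]
  have h : Fw 3 m 5 2 4 2 = Fw 3 (fun i => if i = 0 then 8 else if i = 1 then 4 else 1) 5 2 4 2 := by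
    simp only [Fw, h0, h1, h2]
    simp
  rw [h]
  decide +kernel

end Pool.Agent.N367.SNP
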