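import Mathlib
import Pool.Agent.R850.FG.SSYT
import Pool.Agent.N367.SNP.Count

/-! # Coefficients of the chromatic polynomial and of the Schur polynomials -/

set_option autoImplicit false

namespace Pool.Agent.N367.SNP

open Finset Pool.Agent.R850.FG

/-- The chromatic polynomial in `k` variables. -/
noncomputable def chrom (k : ℕ) : MvPolynomial ℕ ℤ :=
  ∑ᶠ κ : {κ : Fin 13 → Fin k // ∀ u v, Gr.Adj u v → κ u ≠ κ v},
    ∏ v, (MvPolynomial.X ((κ.1 v : ℕ)) : MvPolynomial ℕ ℤ)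

/-- The Schur polynomial in `k` variables. -/
noncomputable def schurP (k : ℕ) (μ : YoungDiagram) : MvPolynomial ℕ ℤ :=
  ∑ᶠ T : {T : SemistandardYoungTableau μ // ∀ p ∈ μ.cells, T p.1 p.2 < k},
    ∏ p ∈ μ.cells, (MvPolynomial.X (T.1 p.1 p.2) : MvPolynomial ℕ ℤ)

theorem prod_X {ι : Type} (s : Finset ι) (f : ι → ℕ) :
    ∏ v ∈ s, (MvPolynomial.X (f v) : MvPolynomial ℕ ℤ) =
      MvPolynomial.monomial (∑ v ∈ s, Finsupp.single (f v) 1) 1 := by
  rw [MvPolynomial.monomial_sum_one]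
  rfl

open Classical in
theorem coeff_fin {ι : Type} [Finite ι] (g : ι → ℕ →₀ ℕ) (m : ℕ →₀ ℕ) :
    MvPolynomial.coeff m (∑ᶠ i, MvPolynomial.monomial (g i) (1 : ℤ)) =
      (Nat.card {i : ι // g i = m} : ℤ) := by
  have := Fintype.ofFinite ι
  rw [finsum_eq_sum_of_fintype, MvPolynomial.coeff_sum]
  simp_rw [MvPolynomial.coeff_monomial]
  rw [Finset.sum_boole, Nat.card_eq_fintype_card, Fintype.card_subtype]

theorem chrom_coeff (k : ℕ) (m : ℕ →₀ ℕ) : MvPolynomial.coeff m (chrom k) =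
    (Nat.card {κ : {κ : Fin 13 → Fin k // ∀ u v, Gr.Adj u v → κ u ≠ κ v} //
      ∑ v, Finsupp.single ((κ.1 v : ℕ)) 1 = m} : ℤ) := by
  rw [chrom]
  simp_rw [prod_X]
  exact coeff_fin _ m

instance finiteT (k : ℕ) (μ : YoungDiagram) :
    Finite {T : SemistandardYoungTableau μ // ∀ p ∈ μ.cells, T p.1 p.2 < k} := by
  refine Finite.of_injective (β := μ.cells → Fin k) (fun T c => ⟨T.1 c.1.1 c.1.2, T.2 c.1 c.2⟩) ?_
  rintro ⟨T, hT⟩ ⟨T', hT'⟩ h
  apply Subtype.ext
  ext i j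
  simp only
  by_cases hij : (i, j) ∈ μ
  · have h1 := congrFun h ⟨(i, j), hij⟩
    exact congrArg Fin.val h1
  · rw [T.zeros hij, T'.zeros hij]

theorem schurP_coeff (k : ℕ) (μ : YoungDiagram) (m : ℕ →₀ ℕ) :
    MvPolynomial.coeff m (schurP k μ) =
      (Nat.card {T : {T : SemistandardYoungTableau μ // ∀ p ∈ μ.cells, T p.1 p.2 < k} //
        ctab T.1 = m} : ℤ) := by
  rw [schurP]
  simp_rw [prod_X]
  exact coeff_fin _ m

theorem schurP_coeff_eq (k : ℕ) (μ : YoungDiagram) (m : ℕ →₀ ℕ) (hm : ∀ i, k ≤ i → m i = 0) :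
    MvPolynomial.coeff m (schurP k μ) = KK (fun i => (m i : ℤ)) k μ := by
  rw [schurP_coeff, ← (card_tab k μ m hm).2]
  congr 1
  refine Nat.card_congr
    { toFun := fun T => ⟨T.1.1, T.2⟩
      invFun := fun T => ⟨⟨T.1, fun p hp => ctab_lt T.1 m T.2 k hm hp⟩, T.2⟩
      left_inv := fun _ => rfl
      right_inv := fun _ => rfl }

theorem schurP_coeff_zero (k : ℕ) (μ : YoungDiagram) (m : ℕ →₀ ℕ) (i : ℕ) (hi : k ≤ i)
    (hm : m i ≠ 0) : MvPolynomial.coeff m (schurP k μ) = 0 := by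
  rw [schurP_coeff]
  have : IsEmpty {T : {T : SemistandardYoungTableau μ // ∀ p ∈ μ.cells, T p.1 p.2 < k} //
      ctab T.1 = m} := by
    refine ⟨fun T => hm ?_⟩
    rw [← T.2, ctab_apply, Finset.card_eq_zero, Finset.filter_eq_empty_iff]
    intro c hc
    have := T.1.2 c hc
    omega
  rw [Nat.card_of_isEmpty]
  rfl

theorem content_apply {k : ℕ} (κ : Fin 13 → Fin k) (i : ℕ) :
    (∑ v, Finsupp.single ((κ v : ℕ)) 1 : ℕ →₀ ℕ) i = (univ.filter fun v => (κ v : ℕ) = i).card := by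
  rw [Finsupp.finsetSum_apply, Finset.card_filter]
  refine Finset.sum_congr rfl fun c _ => ?_
  rw [Finsupp.single_apply]

theorem chrom_coeff_eq (k : ℕ) (m : ℕ →₀ ℕ) (hm : ∀ i, k ≤ i → m i = 0) :
    MvPolynomial.coeff m (chrom k) = ((A k univ m).card : ℤ) := by
  rw [chrom_coeff, ← Nat.card_eq_finsetCard]
  congr 1
  refine Nat.card_congr
    { toFun := fun κ => ⟨fun v => (κ.1.1 v : ℕ), mem_A.2 ⟨fun v _ => (κ.1.1 v).2,
        fun v hv => absurd (mem_univ v) hv,
        fun u _ v _ h => fun he => κ.1.2 u v h (Fin.ext he), fun i _ =>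
          (content_apply κ.1.1 i).symm.trans (DFunLike.congr_fun κ.2 i)⟩⟩
      invFun := fun κ => ⟨⟨fun v => ⟨κ.1 v, (mem_A.1 κ.2).1 v (mem_univ v)⟩, fun u v h he =>
          (mem_A.1 κ.2).2.2.1 u (mem_univ u) v (mem_univ v) h (congrArg Fin.val he)⟩, by
            ext i
            rw [content_apply]
            by_cases hi : i < k
            · exact (mem_A.1 κ.2).2.2.2 i hi
            · rw [hm i (not_lt.1 hi), Finset.card_eq_zero, Finset.filter_eq_empty_iff]
              intro v _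
              have := (mem_A.1 κ.2).1 v (mem_univ v)
              simp only
              omega⟩
      left_inv := fun _ => rfl
      right_inv := fun _ => rfl }

theorem chrom_coeff_zero (k : ℕ) (m : ℕ →₀ ℕ) (i : ℕ) (hi : k ≤ i)
    (hm : m i ≠ 0) : MvPolynomial.coeff m (chrom k) = 0 := by
  rw [chrom_coeff]
  have : IsEmpty {κ : {κ : Fin 13 → Fin k // ∀ u v, Gr.Adj u v → κ u ≠ κ v} //
      ∑ v, Finsupp.single ((κ.1 v : ℕ)) 1 = m} := by
    refine ⟨fun κ => hm ?_⟩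
    rw [← κ.2, content_apply, Finset.card_eq_zero, Finset.filter_eq_empty_iff]
    intro v _
    have := (κ.1.1 v).2
    omega
  rw [Nat.card_of_isEmpty]
  rfl

open Classical in
/-- The coefficients. -/
noncomputable def cc : YoungDiagram →₀ ℕ :=
  Finsupp.onFinset (YD 13) (fun μ => if μ ∈ YD 13 then (cf 5 2 4 2 μ).toNat else 0) (by
    intro μ h
    by_contra h1
    rw [if_neg h1] at h
    exact h rfl)

theorem chrom_eq (k : ℕ) : chrom k = cc.sum fun μ a => a • schurP k μ := by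
  have h0 : (cc.sum fun μ a => a • schurP k μ) =
      ∑ μ ∈ YD 13, (cf 5 2 4 2 μ).toNat • schurP k μ := by
    rw [cc, Finsupp.onFinset_sum _ (fun μ => zero_smul ℕ (schurP k μ))]
    refine Finset.sum_congr rfl fun μ hμ => ?_
    rw [if_pos hμ]
  rw [h0]
  ext m
  rw [MvPolynomial.coeff_sum]
  by_cases hm : ∀ i, k ≤ i → m i = 0
  · rw [chrom_coeff_eq k m hm, card_A_univ]
    refine Finset.sum_congr rfl fun μ _ => ?_
    rw [MvPolynomial.coeff_smul, schurP_coeff_eq k μ m hm, nsmul_eq_mul, mul_comm,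
      Int.natCast_toNat_eq_self.2 (cf_nonneg μ)]
  · push Not at hm
    obtain ⟨i, hi, hi'⟩ := hm
    rw [chrom_coeff_zero k m i hi hi']
    symm
    refine Finset.sum_eq_zero fun μ _ => ?_
    rw [MvPolynomial.coeff_smul, schurP_coeff_zero k μ m i hi hi', smul_zero]

end Pool.Agent.N367.SNP
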