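import Mathlib
import Pool.Agent.N367.SNP.Poly

/-! # The Newton polytope for three colors -/

set_option autoImplicit false

namespace Pool.Agent.N367.SNP

open Finset Pool.Agent.R850.FG

/-- The exponent `(a, b, c)`. -/
noncomputable def tri (a b c : ℕ) : ℕ →₀ ℕ :=
  Finsupp.single 0 a + Finsupp.single 1 b + Finsupp.single 2 c

theorem tri_apply (a b c i : ℕ) :
    tri a b c i = if i = 0 then a else if i = 1 then b else if i = 2 then c else 0 := by
  rw [tri, Finsupp.add_apply, Finsupp.add_apply, Finsupp.single_apply, Finsupp.single_apply,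
    Finsupp.single_apply]
  split_ifs <;> omega

theorem coeff_tri (a b c : ℕ) : MvPolynomial.coeff (tri a b c) (chrom 3) =
    (Fw 3 (fun i => if i = 0 then a else if i = 1 then b else if i = 2 then c else 0) 5 2 4 2 : ℤ) := by
  rw [chrom_coeff_eq, card_A_eq]
  · obtain ⟨e0, e1, e2, e3⟩ := ty_univ
    rw [e0, e1, e2, e3]
    congr 2
    funext i
    exact tri_apply a b c i
  · intro i hi
    rw [tri_apply, if_neg (by omega), if_neg (by omega), if_neg (by omega)]

theorem mem_one : tri 7 6 0 ∈ (chrom 3).support := by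
  rw [MvPolynomial.mem_support_iff, coeff_tri]
  decide +kernel

theorem mem_two : tri 9 2 2 ∈ (chrom 3).support := by
  rw [MvPolynomial.mem_support_iff, coeff_tri]
  decide +kernel

theorem notMem : tri 8 4 1 ∉ (chrom 3).support := by
  rw [MvPolynomial.mem_support_iff, coeff_tri, not_not]
  decide +kernel

theorem mem_hull : (fun i : ℕ => ((tri 8 4 1) i : ℝ)) ∈ convexHull ℝ
    ((fun β : ℕ →₀ ℕ => (fun i : ℕ => (β i : ℝ))) '' ((chrom 3).support : Set (ℕ →₀ ℕ))) := by
  set s := (fun β : ℕ →₀ ℕ => (fun i : ℕ => (β i : ℝ))) '' ((chrom 3).support : Set (ℕ →₀ ℕ))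
    with hs
  have h1 : (fun i : ℕ => ((tri 7 6 0) i : ℝ)) ∈ convexHull ℝ s :=
    subset_convexHull ℝ s ⟨_, mem_one, rfl⟩
  have h2 : (fun i : ℕ => ((tri 9 2 2) i : ℝ)) ∈ convexHull ℝ s :=
    subset_convexHull ℝ s ⟨_, mem_two, rfl⟩
  have h3 := convex_convexHull ℝ s h1 h2 (a := 1 / 2) (b := 1 / 2) (by norm_num) (by norm_num)
    (by norm_num)
  have h4 : (fun i : ℕ => ((tri 8 4 1) i : ℝ)) = (1 / 2 : ℝ) • (fun i : ℕ => ((tri 7 6 0) i : ℝ)) +
      (1 / 2 : ℝ) • (fun i : ℕ => ((tri 9 2 2) i : ℝ)) := by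
    funext i
    simp only [Pi.add_apply, Pi.smul_apply, smul_eq_mul, tri_apply]
    split_ifs <;> norm_num
  rw [h4]
  exact h3

end Pool.Agent.N367.SNP
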